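import Pool.Agent.FlatTr.A7

set_option autoImplicit false

namespace Pool.Agent.Results.MP_7346ec_al.ResidueFlat

universe v

/-- The right ideals of `A` form a distributive lattice. -/
def RightDistributive (A : Type v) [Ring A] : Prop :=
  ∀ I J K : Submodule Aᵐᵒᵖ A, I ⊓ (J ⊔ K) = (I ⊓ J) ⊔ (I ⊓ K)

/-- The maximal right ideals `M` of `A` such that `1` is a finite sum of additive commutators
`x y - y x` modulo `M`. -/
def CommutatorResidue (A : Type v) [Ring A] : Set (Submodule Aᵐᵒᵖ A) :=
  {M | IsCoatom M ∧ ∃ (m : ℕ) (x y : Fin m → A), 1 - ∑ i, (x i * y i - y i * x i) ∈ M}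

/-- The maximal right ideals `M` of `A` which are not the kernel of a ring homomorphism from `A`
to an ordered division ring. -/
def NonorderableResidue (A : Type v) [Ring A] : Set (Submodule Aᵐᵒᵖ A) :=
  {M | IsCoatom M ∧ ¬ ∃ (L : Type v) (_ : DivisionRing L) (_ : LinearOrder L)
    (_ : IsStrictOrderedRing L) (f : A →+* L), ∀ x, f x = 0 ↔ x ∈ M}

/-- Central partitions of unity modulo the Jacobson radical: whenever finitely many right ideals
`W_1, ..., W_n` sum to `A`, there are `y_i ∈ W_i` with sum `1` such that every commutator of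
every `y_i` lies in every maximal right ideal. -/
def CentralPartitions (A : Type v) [Ring A] : Prop :=
  ∀ (n : ℕ) (W : Fin n → Submodule Aᵐᵒᵖ A), (⨆ i, W i) = ⊤ →
    ∃ y : Fin n → A, (∀ i, y i ∈ W i) ∧ ∑ i, y i = 1 ∧
      ∀ i, ∀ M : Submodule Aᵐᵒᵖ A, IsCoatom M → ∀ b : A, y i * b - b * y i ∈ M

/-- The equational criterion for flatness of the right ideal `I`. -/
def IsFlat (A : Type v) [Ring A] (I : Submodule Aᵐᵒᵖ A) : Prop :=
  ∀ (n : ℕ) (m a : Fin n → A), (∀ i, m i ∈ I) → ∑ i, m i * a i = 0 →
    ∃ (k : ℕ) (y : Fin k → A) (B : Fin k → Fin n → A),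
      (∀ j, y j ∈ I) ∧ (∀ i, m i = ∑ j, y j * B j i) ∧ (∀ j, ∑ i, B j i * a i = 0)

/-- In a reduced right distributive ring `A` every right ideal is flat if, for all but finitely
many maximal right ideals `M`, the identity of `A / M` is not a sum of additive commutators; or if
all but finitely many of the `A / M` embed in ordered division rings; or if there are central
partitions of unity modulo the Jacobson radical. -/
theorem result (A : Type v) [Ring A] (hred : IsReduced A) (hdist : RightDistributive A)
    (h : (CommutatorResidue A).Finite ∨ (NonorderableResidue A).Finite ∨ CentralPartitions A)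
    (I : Submodule Aᵐᵒᵖ A) : IsFlat A I := by
  rcases h with h | h | h
  · exact Pool.Agent.FlatTr.flat_of_good hred hdist
      (fun _ a => Pool.Agent.FlatTr.good_all hred hdist h a) I
  · exact Pool.Agent.FlatTr.flat_of_good hred hdist
      (fun _ a => Pool.Agent.FlatTr.good_ord hred hdist h a) I
  · exact Pool.Agent.FlatRD.flat_of_partition hred hdist h I

end Pool.Agent.Results.MP_7346ec_al.ResidueFlat
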